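import Pool.Agent.Helper46_D2.Xpr1

/-!
# Part D2, module XPR: the cokernel is projective
-/

open scoped BigOperators

set_option linter.unusedSectionVars false

noncomputable section

namespace Pool.Agent.PP.CD2.H46

open Pool.Agent.PP Pool.Agent.Helper51_AWC Pool.Agent.Helper79_WRA Pool.Agent.PP.H20
open Pool.Agent.PP.CD2.H66 (toMA_pwF toMA_pwR pwF_succ pwR_succ pwF_zero pwR_zero cm_comm comm_of
  umf_ums ums_nil' ums_wb toMA_sum')

variable {F : Type} [Field F] {G : Type} [Group G] [Finite G] {V : Type} [AddCommGroup V]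
  [Module F V]

theorem exists_s (W : V →ₗ[F] V) (q : ℕ) (t : V) (ht : t ∉ LinearMap.range (W ^ (q - 1))) :
    ∃ s, 1 ≤ s ∧ s + 1 ≤ q ∧ t ∈ LinearMap.range (W ^ (s - 1)) ∧
      t ∉ LinearMap.range (W ^ s) := by
  classical
  have hex : ∃ m, t ∉ LinearMap.range (W ^ m) := ⟨q - 1, ht⟩
  have h0 : Nat.find hex ≠ 0 := by
    intro h
    have h1 := Nat.find_spec hex
    rw [h] at h1
    exact h1 ⟨t, rfl⟩
  have hle : Nat.find hex ≤ q - 1 := Nat.find_le ht
  refine ⟨Nat.find hex, by omega, by omega, ?_, Nat.find_spec hex⟩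
  by_contra h
  have := Nat.find_le (h := hex) h
  omega

theorem exists_eta [FiniteDimensional F V] (ρ : Representation F G V) {b w i : G → F} {s : ℕ}
    {t : V} (hb : ∀ v, evV ρ b v = v) (hii : mulF i i = i) (hwi : mulF w i = mulF i w)
    (hti : evV ρ i t = t) (ht : t ∉ LinearMap.range ((evV ρ w) ^ s)) :
    ∃ η : V →ₗ[F] F, Eta ρ b w i s η ∧ η t = 1 := by
  obtain ⟨f, hf, hf0⟩ := Submodule.exists_dual_map_eq_bot_of_notMem ht inferInstance
  have hcommj : ∀ (j : ℕ), evV ρ i * (evV ρ w) ^ j = (evV ρ w) ^ j * evV ρ i := by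
    intro j
    have h : Commute (evV ρ i) (evV ρ w) := by
      rw [Commute, SemiconjBy, ← H66.evV_mulF, ← H66.evV_mulF, hwi]
    exact Commute.pow_right h j
  refine ⟨(f t)⁻¹ • (f ∘ₗ evV ρ i), ⟨hb, ?_, ?_⟩, ?_⟩
  · apply LinearMap.ext
    intro v
    change (f t)⁻¹ • f (evV ρ i (evV ρ i v)) = (f t)⁻¹ • f (evV ρ i v)
    rw [← H66.evV_mulF_apply, hii]
  · apply LinearMap.ext
    intro v
    change (f t)⁻¹ • f (evV ρ i (((evV ρ w) ^ s) v)) = 0
    rw [← Module.End.mul_apply, hcommj, Module.End.mul_apply]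
    have h1 : f (((evV ρ w) ^ s) (evV ρ i v)) ∈ (LinearMap.range ((evV ρ w) ^ s)).map f :=
      ⟨_, ⟨_, rfl⟩, rfl⟩
    rw [hf0, Submodule.mem_bot] at h1
    rw [h1, smul_zero]
  · change (f t)⁻¹ • f (evV ρ i t) = 1
    rw [hti, smul_eq_mul, inv_mul_cancel₀ hf]

theorem alp_inj {k : ℕ} {σ : G →* Matrix (Fin k) (Fin k) F} (hσ : IsIrr σ)
    {η : (Fin k → F) →ₗ[F] F} {t : Fin k → F} (ht : η t = 1) :
    Function.Injective (alp (mrep σ) η) := by
  rw [← LinearMap.ker_eq_bot, Submodule.eq_bot_iff]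
  intro v hv
  by_contra hv0
  have h1 : LinearMap.ker (alp (mrep σ) η) = ⊤ := by
    refine Pool.Agent.PP.H46.stab_all hσ (fun g v hv => ?_) hv hv0
    rw [LinearMap.mem_ker] at hv ⊢
    change alp (mrep σ) η (mrep σ g v) = 0
    funext x
    have h2 := congrFun hv (g⁻¹ * x)
    rw [alp_apply, mul_inv_rev, inv_inv, map_mul] at h2
    exact h2
  have h2 : t ∈ LinearMap.ker (alp (mrep σ) η) := by rw [h1]; trivial
  rw [LinearMap.mem_ker] at h2
  have h3 := congrFun h2 1
  rw [alp_one, ht] at h3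
  exact one_ne_zero h3

theorem finrank_rng {k : ℕ} (σ : G →* Matrix (Fin k) (Fin k) F) (a : G → F) :
    Module.finrank F (LinearMap.range (evV (mrep σ) a)) = (ev σ a).rank := by
  have h : evV (mrep σ) a = (ev σ a).mulVecLin := by
    apply LinearMap.ext
    intro v
    rw [Pool.Agent.PP.H46.evV_mrep, Matrix.mulVecLin_apply]
  rw [h]
  rfl

section quot

variable (b w i : G → F) (s : ℕ) (hcl : IsCl b)

/-- the action on `M_s` -/
abbrev rM : Representation F G (Ms b w i s) := subr (lreg F G) (Ms b w i s) (Ms_stb hcl w i s)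

theorem rM_coe (a : G → F) (x : Ms b w i s) :
    ((evV (rM b w i s hcl) a x : Ms b w i s) : G → F) = mulF a x := by
  rw [evV_subr, evV_lreg]

variable (T : Submodule F (G → F))

theorem stbA (hT : Stb ⊤ (lreg F G) T) : Stb ⊤ (rM b w i s hcl) (T.comap (Ms b w i s).subtype) := by
  intro g hg x hx
  exact hT g hg _ hx

variable (hT : Stb ⊤ (lreg F G) T)

/-- the action on the quotient -/
abbrev rX : Representation F G ((Ms b w i s) ⧸ (T.comap (Ms b w i s).subtype)) :=
  quor (rM b w i s hcl) (T.comap (Ms b w i s).subtype) (stbA b w i s hcl T hT)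

theorem mk_eq (x y : Ms b w i s) : (T.comap (Ms b w i s).subtype).mkQ x =
    (T.comap (Ms b w i s).subtype).mkQ y ↔ (x : G → F) - y ∈ T := by
  rw [Submodule.mkQ_apply, Submodule.mkQ_apply, Submodule.Quotient.eq]
  rfl

theorem rX_mk (a : G → F) (x : Ms b w i s) : evV (rX b w i s hcl T hT) a
    ((T.comap (Ms b w i s).subtype).mkQ x) = (T.comap (Ms b w i s).subtype).mkQ
      ⟨mulF a x, mulF_mem hcl a x.2⟩ := by
  rw [evV_quor]
  congr 1
  apply Subtype.ext
  exact rM_coe b w i s hcl a x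

theorem rX_pow (a : G → F) (j : ℕ) (x y : Ms b w i s) (h : (y : G → F) = pwF a j x) :
    ((evV (rX b w i s hcl T hT) a) ^ j) ((T.comap (Ms b w i s).subtype).mkQ x) =
      (T.comap (Ms b w i s).subtype).mkQ y := by
  induction j generalizing y with
  | zero =>
    have e : x = y := Subtype.ext h.symm
    subst e
    rfl
  | succ j ih =>
    have hm : ∀ j, pwF a j (x : G → F) ∈ Ms b w i s := by
      intro j
      induction j with
      | zero => exact x.2
      | succ j ih => rw [pwF_succ]; exact mulF_mem hcl a ih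
    rw [pow_succ', Module.End.mul_apply, ih ⟨pwF a j x, hm j⟩ rfl, rX_mk]
    congr 1
    apply Subtype.ext
    rw [h, pwF_succ]

end quot

theorem xpr (huq : Uq1Stmt) (hnlk : NlkStmt) (hxbm : XbmStmt) (hfra : FraStmt) : XprStmt := by
  intro ℓ hℓ F _ hF G _ _ n P y₁ b w i h
  obtain ⟨k, σ, hu, t, htf, hti, htn, hker⟩ := huq ℓ F hF G n P y₁ b w i h
  obtain ⟨s, hs1, hs2, hsr, hsn⟩ := exists_s (evV (mrep σ) w) (ℓ ^ (n + 1)) t htn
  refine ⟨k, σ, hu, s, hs1, hs2, fun i' c hi hdiv => ?_⟩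
  have hcl : IsCl b := h.d2s.idem.1
  have hwi : mulF w i = mulF i w := cm_comm h.umf.cw h.umf.si
  have hbV : ∀ v, evV (mrep σ) b v = v := by
    intro v
    rw [Pool.Agent.PP.H46.evV_mrep, hu.one, Matrix.one_mulVec]
  obtain ⟨η, hη, hηt⟩ := exists_eta (mrep σ) hbV h.umf.ii hwi hti hsn
  have hinj : Function.Injective (alp (mrep σ) η) := alp_inj hu.irr hηt
  obtain ⟨u₀, hu₀⟩ := hsr
  have hcommj : ∀ (j : ℕ) v, evV (mrep σ) i (((evV (mrep σ) w) ^ j) v) =
      ((evV (mrep σ) w) ^ j) (evV (mrep σ) i v) := by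
    intro j v
    have h0 : Commute (evV (mrep σ) i) (evV (mrep σ) w) := by
      rw [Commute, SemiconjBy, ← H66.evV_mulF, ← H66.evV_mulF, hwi]
    have := Commute.pow_right h0 j
    rw [← Module.End.mul_apply, ← Module.End.mul_apply]
    exact congrArg (fun f => f v) this
  have hut : t = ((evV (mrep σ) w) ^ (s - 1)) (evV (mrep σ) i u₀) := by
    rw [← hcommj, hu₀, hti]
  have hui : evV (mrep σ) i (evV (mrep σ) i u₀) = evV (mrep σ) i u₀ := by
    rw [← H66.evV_mulF_apply, h.umf.ii]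
  have hcore : ∀ x : G → F, MSw b w i s x → mulF i x = x → ∀ v₀ : Fin k → F,
      mulF w x = alp (mrep σ) η v₀ → ∃ (v : Fin k → F) (y : G → F), MSw b w i s y ∧
        x = alp (mrep σ) η v + pwF w (ℓ ^ (n + 1) - 1) y := by
    intro x hx hix v₀ hv₀
    exact core hnlk hxbm hF h (mrep σ) hs1 hs2 hti htf.2 hut hui hsn hker hη hηt hinj hx hix hv₀
  let T : Submodule F (G → F) := LinearMap.range (alp (mrep σ) η)
  have hT : Stb ⊤ (lreg F G) T := alp_stb (mrep σ) η
  let M : Submodule F (G → F) := Ms b w i s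
  let A : Submodule F M := T.comap M.subtype
  let R : Representation F G (M ⧸ A) := rX b w i s hcl T hT
  have hRb : ∀ v, evV R b v = v := by
    intro v
    obtain ⟨x, rfl⟩ := A.mkQ_surjective v
    refine (rX_mk b w i s hcl T hT b x).trans ?_
    congr 1
    apply Subtype.ext
    exact x.2.1
  -- the fixed points of the cokernel
  have hfix : fixW R (bY y₁ b) w ≤ rngW R w (ℓ ^ (n + 1) - 1) := by
    intro z hz
    obtain ⟨hz1, hz2⟩ := hz
    obtain ⟨x, rfl⟩ := A.mkQ_surjective z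
    have e1 : evV R (bY y₁ b) (A.mkQ x) = A.mkQ ⟨mulF (bY y₁ b) x, mulF_mem hcl _ x.2⟩ :=
      rX_mk b w i s hcl T hT (bY y₁ b) x
    have e2 : evV R w (A.mkQ x) = A.mkQ ⟨mulF w x, mulF_mem hcl _ x.2⟩ :=
      rX_mk b w i s hcl T hT w x
    rw [e2] at hz2
    have e3 : mulF w (x : G → F) ∈ T := by
      have e4 : A.mkQ ⟨mulF w x, mulF_mem hcl _ x.2⟩ = A.mkQ 0 := by rw [hz2, map_zero]
      have e5 := (mk_eq b w i s T _ _).1 e4
      rw [Submodule.coe_zero, sub_zero] at e5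
      exact e5
    obtain ⟨v₁, hv₁⟩ := e3
    obtain ⟨m, X, Y, hXY, hfull⟩ := h.umf.full
    have hk : ∀ j, ∃ (v : Fin k → F) (y : G → F), MSw b w i s y ∧
        mulF i (mulF (Y j) x) = alp (mrep σ) η v + pwF w (ℓ ^ (n + 1) - 1) y := by
      intro j
      have hwY : mulF w (Y j) = mulF (Y j) w := cm_comm h.umf.cw (hXY j).2
      refine hcore _ (mulF_mem hcl _ (mulF_mem hcl _ x.2)) ?_
        (evV (mrep σ) i (evV (mrep σ) (Y j) v₁)) ?_
      · rw [← mulF_assoc, h.umf.ii]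
      · rw [← mulF_assoc, hwi, mulF_assoc, ← mulF_assoc w, hwY, mulF_assoc, ← hv₁, mulF_alp,
          mulF_alp]
    choose v y hy hvy using hk
    have hsum : mulF (bY y₁ b) (x : G → F) =
        alp (mrep σ) η (∑ j, evV (mrep σ) (X j) (v j)) +
          pwF w (ℓ ^ (n + 1) - 1) (∑ j, mulF (X j) (y j)) := by
      rw [← hfull, H66.sum_mulF, map_sum]
      have e5 : pwF w (ℓ ^ (n + 1) - 1) (∑ j, mulF (X j) (y j)) =
          ∑ j, mulF (X j) (pwF w (ℓ ^ (n + 1) - 1) (y j)) := by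
        apply toMA_injective
        rw [toMA_pwF, H66.toMA_sum, H66.toMA_sum, Finset.mul_sum]
        refine Finset.sum_congr rfl fun j _ => ?_
        have e6 : toMA (X j) * toMA w ^ (ℓ ^ (n + 1) - 1) =
            toMA w ^ (ℓ ^ (n + 1) - 1) * toMA (X j) :=
          Commute.pow_right (comm_of h.umf.cw (hXY j).1).symm _
        rw [toMA_mulF, toMA_mulF, toMA_pwF, ← mul_assoc, ← mul_assoc, e6]
      rw [e5, ← Finset.sum_add_distrib]
      refine Finset.sum_congr rfl fun j _ => ?_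
      rw [← mulF_alp, ← mulF_add, ← hvy, mulF_assoc, mulF_assoc]
    have hyM : (∑ j, mulF (X j) (y j)) ∈ M :=
      M.sum_mem fun j _ => mulF_mem hcl _ (hy j)
    have hpM : ∀ j, pwF w j (∑ j, mulF (X j) (y j)) ∈ M := by
      intro j
      induction j with
      | zero => exact hyM
      | succ j ih => rw [pwF_succ]; exact mulF_mem hcl _ ih
    rw [← hz1, e1]
    refine ⟨A.mkQ ⟨_, hyM⟩, ?_⟩
    refine (rX_pow b w i s hcl T hT w (ℓ ^ (n + 1) - 1) ⟨_, hyM⟩ ⟨_, hpM _⟩ rfl).trans ?_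
    refine ((mk_eq b w i s T _ _).2 ?_).symm
    change mulF (bY y₁ b) (x : G → F) - pwF w (ℓ ^ (n + 1) - 1) (∑ j, mulF (X j) (y j)) ∈ T
    rw [hsum, add_sub_cancel_right]
    exact ⟨_, rfl⟩
  obtain ⟨ψ, hψ⟩ := hfra ℓ F hF G n ⊤ P y₁ b w h.d2s (M ⧸ A) R hRb hfix
  have hpj : PjR b R := by
    refine ⟨hRb, ψ, ?_⟩
    rw [← hψ]
    exact (finsum_comp_equiv (f := fun g : G => R g ∘ₗ ψ ∘ₗ R g⁻¹)
      (Subgroup.topEquiv (G := G)).toEquiv).symm
  obtain ⟨r, hr⟩ := hdiv (M ⧸ A) R hpj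
  refine ⟨r, ?_⟩
  -- the count of dimensions
  let S : Submodule F (G → F) := M ⊓ LinearMap.ker (evV (lreg F G) i' - LinearMap.id)
  have hS : ∀ x, x ∈ S ↔ MSw b w i s x ∧ mulF i' x = x := by
    intro x
    change _ ∧ x ∈ LinearMap.ker (evV (lreg F G) i' - LinearMap.id) ↔ _
    rw [LinearMap.mem_ker, LinearMap.sub_apply, sub_eq_zero, evV_lreg]
    rfl
  have hspan : Submodule.span F {x : G → F | mulF i' x = x ∧ MSw b w i s x} = S := by
    have e : {x : G → F | mulF i' x = x ∧ MSw b w i s x} = (S : Set (G → F)) := by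
      ext x
      change _ ↔ x ∈ S
      rw [hS]
      exact and_comm
    rw [e, Submodule.span_eq]
  let f : S →ₗ[F] (M ⧸ A) := A.mkQ ∘ₗ Submodule.inclusion inf_le_left
  have hrange : LinearMap.range f = LinearMap.range (evV R i') := by
    apply le_antisymm
    · rintro _ ⟨x, rfl⟩
      refine ⟨f x, ?_⟩
      refine (rX_mk b w i s hcl T hT i' ⟨x, x.2.1⟩).trans ?_
      change _ = A.mkQ ⟨x, x.2.1⟩
      congr 1
      apply Subtype.ext
      exact ((hS x).1 x.2).2
    · rintro _ ⟨z, rfl⟩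
      obtain ⟨x, rfl⟩ := A.mkQ_surjective z
      have hx : mulF i' (x : G → F) ∈ S := by
        rw [hS]
        refine ⟨mulF_mem hcl i' x.2, ?_⟩
        rw [← mulF_assoc, hi.ii]
      refine ⟨⟨_, hx⟩, ?_⟩
      exact (rX_mk b w i s hcl T hT i' x).symm
  let E : Submodule F (Fin k → F) := LinearMap.range (evV (mrep σ) i')
  have hE : ∀ v ∈ E, evV (mrep σ) i' v = v := by
    rintro _ ⟨v, rfl⟩
    rw [← H66.evV_mulF_apply, hi.ii]
  let g : E →ₗ[F] S := LinearMap.codRestrict S (alp (mrep σ) η ∘ₗ E.subtype) (by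
    intro v
    rw [hS]
    refine ⟨alp_mem hη _, ?_⟩
    change mulF i' (alp (mrep σ) η v) = alp (mrep σ) η v
    rw [mulF_alp, hE _ v.2])
  have hginj : Function.Injective g := by
    intro u v huv
    apply Subtype.ext
    apply hinj
    exact congrArg Subtype.val huv
  have hgr : LinearMap.range g = LinearMap.ker f := by
    ext x
    rw [LinearMap.mem_ker]
    have e0 : f x = 0 ↔ (x : G → F) ∈ T := by
      change A.mkQ ⟨x, x.2.1⟩ = 0 ↔ _
      rw [← map_zero A.mkQ]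
      rw [mk_eq b w i s T]
      rw [Submodule.coe_zero, sub_zero]
    rw [e0]
    constructor
    · rintro ⟨v, rfl⟩
      exact ⟨v, rfl⟩
    · rintro ⟨v, hv⟩
      have hv2 : evV (mrep σ) i' v = v := by
        apply hinj
        rw [← mulF_alp, hv]
        exact ((hS x).1 x.2).2
      refine ⟨⟨v, ⟨v, hv2⟩⟩, ?_⟩
      apply Subtype.ext
      exact hv
  have h1 : Module.finrank F (LinearMap.ker f) = 1 := by
    rw [← hgr, LinearMap.finrank_range_of_inj hginj, finrank_rng, hi.rk]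
  have h2 := LinearMap.finrank_range_add_finrank_ker f
  rw [h1, hrange, hr] at h2
  rw [hspan]
  exact h2.symm

end Pool.Agent.PP.CD2.H46
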