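import Pool.Agent.Helper66_D2.Tool

/-!
# Part D2: the regular representation, subrepresentations and quotients
-/

open scoped BigOperators

set_option linter.unusedSectionVars false

noncomputable section

namespace Pool.Agent.PP.CD2.H46

open Pool.Agent.PP Pool.Agent.Helper51_AWC Pool.Agent.Helper79_WRA Pool.Agent.PP.H20

variable {F : Type} [Field F] {G : Type} [Group G] [Finite G] {V : Type} [AddCommGroup V]
  [Module F V]

variable (F G) in
/-- the left regular representation -/
def lreg : Representation F G (G → F) where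
  toFun x :=
    { toFun := fun a g => a (x⁻¹ * g)
      map_add' := fun _ _ => rfl
      map_smul' := fun _ _ => rfl }
  map_one' := by
    apply LinearMap.ext
    intro a
    funext g
    change a (1⁻¹ * g) = a g
    rw [inv_one, one_mul]
  map_mul' x y := by
    apply LinearMap.ext
    intro a
    funext g
    change a ((x * y)⁻¹ * g) = a (y⁻¹ * (x⁻¹ * g))
    rw [mul_inv_rev, mul_assoc]

theorem lreg_apply (x : G) (a : G → F) : lreg F G x a = fun g => a (x⁻¹ * g) := rfl

theorem evV_lreg (a x : G → F) : evV (lreg F G) a x = mulF a x := by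
  have := Fintype.ofFinite G
  rw [D66.evV_apply]
  funext g
  rw [Finset.sum_apply, mulF, finsum_eq_sum_of_fintype]
  rfl

/-- matrix coefficients -/
def alp (ρ : Representation F G V) (η : V →ₗ[F] F) : V →ₗ[F] (G → F) where
  toFun v g := η (ρ g⁻¹ v)
  map_add' u v := by
    funext g
    change η (ρ g⁻¹ (u + v)) = η (ρ g⁻¹ u) + η (ρ g⁻¹ v)
    rw [map_add, map_add]
  map_smul' c v := by
    funext g
    change η (ρ g⁻¹ (c • v)) = c • η (ρ g⁻¹ v)
    rw [map_smul, map_smul]

theorem alp_apply (ρ : Representation F G V) (η : V →ₗ[F] F) (v : V) (g : G) :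
    alp ρ η v g = η (ρ g⁻¹ v) := rfl

theorem alp_one (ρ : Representation F G V) (η : V →ₗ[F] F) (v : V) : alp ρ η v 1 = η v := by
  rw [alp_apply, inv_one, map_one]
  rfl

theorem mulF_alp (ρ : Representation F G V) (η : V →ₗ[F] F) (a : G → F) (v : V) :
    mulF a (alp ρ η v) = alp ρ η (evV ρ a v) := by
  have := Fintype.ofFinite G
  funext g
  rw [alp_apply, D66.evV_apply, map_sum, map_sum, mulF, finsum_eq_sum_of_fintype]
  refine Finset.sum_congr rfl fun h _ => ?_
  rw [map_smul, map_smul, alp_apply, mul_inv_rev, inv_inv, map_mul]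
  rfl

theorem alp_mulF (ρ : Representation F G V) (η : V →ₗ[F] F) (a : G → F) (v : V) :
    mulF (alp ρ η v) a = alp ρ (η ∘ₗ evV ρ a) v := by
  have := Fintype.ofFinite G
  funext g
  rw [alp_apply, LinearMap.comp_apply, D66.evV_apply, map_sum, mulF, finsum_eq_sum_of_fintype]
  symm
  refine Fintype.sum_equiv ((Equiv.inv G).trans (Equiv.mulLeft g)) _ _ fun m => ?_
  change _ = alp ρ η v (g * m⁻¹) * a ((g * m⁻¹)⁻¹ * g)
  have e1 : (g * m⁻¹)⁻¹ * g = m := by group
  rw [e1, map_smul, alp_apply, smul_eq_mul, mul_comm]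
  congr 2
  rw [← Module.End.mul_apply, ← map_mul]
  congr 2
  group

/-- subrepresentations -/
def subr (ρ : Representation F G V) (S : Submodule F V) (h : Stb ⊤ ρ S) :
    Representation F G S where
  toFun g := (ρ g).restrict (fun v hv => h g trivial v hv)
  map_one' := by
    apply LinearMap.ext
    intro v
    apply Subtype.ext
    rw [LinearMap.coe_restrict_apply, map_one]
    rfl
  map_mul' x y := by
    apply LinearMap.ext
    intro v
    apply Subtype.ext
    rw [LinearMap.coe_restrict_apply, map_mul]
    rfl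

theorem subr_coe (ρ : Representation F G V) (S : Submodule F V) (h : Stb ⊤ ρ S) (g : G) (v : S) :
    ((subr ρ S h g v : S) : V) = ρ g v := rfl

theorem evV_subr (ρ : Representation F G V) (S : Submodule F V) (h : Stb ⊤ ρ S) (a : G → F)
    (v : S) : ((evV (subr ρ S h) a v : S) : V) = evV ρ a v := by
  have := Fintype.ofFinite G
  rw [D66.evV_apply, D66.evV_apply, Submodule.coe_sum]
  rfl

/-- quotient representations -/
def quor (ρ : Representation F G V) (A : Submodule F V) (h : Stb ⊤ ρ A) :
    Representation F G (V ⧸ A) where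
  toFun g := A.mapQ A (ρ g) (fun v hv => h g trivial v hv)
  map_one' := by
    apply LinearMap.ext
    intro v
    obtain ⟨v, rfl⟩ := A.mkQ_surjective v
    rw [Submodule.mkQ_apply, Submodule.mapQ_apply, map_one]
    rfl
  map_mul' x y := by
    apply LinearMap.ext
    intro v
    obtain ⟨v, rfl⟩ := A.mkQ_surjective v
    rw [Submodule.mkQ_apply, Submodule.mapQ_apply, map_mul]
    rfl

theorem quor_mk (ρ : Representation F G V) (A : Submodule F V) (h : Stb ⊤ ρ A) (g : G) (v : V) :
    quor ρ A h g (A.mkQ v) = A.mkQ (ρ g v) := rfl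

theorem evV_quor (ρ : Representation F G V) (A : Submodule F V) (h : Stb ⊤ ρ A) (a : G → F)
    (v : V) : evV (quor ρ A h) a (A.mkQ v) = A.mkQ (evV ρ a v) := by
  have := Fintype.ofFinite G
  rw [D66.evV_apply, D66.evV_apply, map_sum]
  refine Finset.sum_congr rfl fun g _ => ?_
  rw [map_smul, quor_mk]

/-- powers act as powers -/
theorem evV_pow_mem (ρ : Representation F G V) (w : G → F) (j : ℕ) (v : V) :
    ((evV ρ w) ^ (j + 1)) v = evV ρ w (((evV ρ w) ^ j) v) := by
  rw [pow_succ', Module.End.mul_apply]

end Pool.Agent.PP.CD2.H46
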