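import Pool.Agent.Helper46_D2.Reg
import Pool.Agent.Helper46_D1.Ind

/-!
# Part D2, module XPR, first part: the spaces `M_s`
-/

open scoped BigOperators

set_option linter.unusedSectionVars false

noncomputable section

namespace Pool.Agent.PP.CD2.H46

open Pool.Agent.PP Pool.Agent.Helper51_AWC Pool.Agent.Helper79_WRA Pool.Agent.PP.H20
open Pool.Agent.PP.CD2.H66 (toMA_pwF toMA_pwR pwF_succ pwR_succ pwF_zero pwR_zero cm_comm comm_of
  umf_ums ums_nil' ums_wb toMA_sum')

variable {F : Type} [Field F] {G : Type} [Group G] [Finite G] {V : Type} [AddCommGroup V]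
  [Module F V]

/-! ## Restriction to a subgroup -/

/-- restriction to `C` -/
def res (C : Subgroup G) (x : G → F) : G → F :=
  open Classical in fun g => if g ∈ C then x g else 0

theorem res_of {C : Subgroup G} {g : G} (h : g ∈ C) (x : G → F) : res C x g = x g := by
  classical
  unfold res
  rw [if_pos h]

theorem res_off {C : Subgroup G} {g : G} (h : g ∉ C) (x : G → F) : res C x g = 0 := by
  classical
  unfold res
  rw [if_neg h]

theorem mulF_res {C : Subgroup G} {a : G → F} (ha : SpF C a) (x : G → F) :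
    mulF a (res C x) = res C (mulF a x) := by
  have := Fintype.ofFinite G
  funext g
  by_cases hg : g ∈ C
  · rw [res_of hg]
    unfold mulF
    rw [finsum_eq_sum_of_fintype, finsum_eq_sum_of_fintype]
    refine Finset.sum_congr rfl fun t _ => ?_
    by_cases ht : t ∈ C
    · rw [res_of (mul_mem (inv_mem ht) hg)]
    · rw [ha t ht, zero_mul, zero_mul]
  · rw [res_off hg]
    unfold mulF
    rw [finsum_eq_sum_of_fintype]
    refine Finset.sum_eq_zero fun t _ => ?_
    by_cases ht : t ∈ C
    · rw [res_off, mul_zero]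
      intro h
      apply hg
      have := mul_mem ht h
      rwa [mul_inv_cancel_left] at this
    · rw [ha t ht, zero_mul]

theorem res_mulF {C : Subgroup G} {a : G → F} (ha : SpF C a) (x : G → F) :
    mulF (res C x) a = res C (mulF x a) := by
  have := Fintype.ofFinite G
  funext g
  by_cases hg : g ∈ C
  · rw [res_of hg]
    unfold mulF
    rw [finsum_eq_sum_of_fintype, finsum_eq_sum_of_fintype]
    refine Finset.sum_congr rfl fun t _ => ?_
    by_cases ht : t ∈ C
    · rw [res_of ht]
    · rw [ha (t⁻¹ * g), mul_zero, mul_zero]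
      intro h
      apply ht
      have := mul_mem hg (inv_mem h)
      rwa [mul_inv_rev, inv_inv, mul_inv_cancel_left] at this
  · rw [res_off hg]
    unfold mulF
    rw [finsum_eq_sum_of_fintype]
    refine Finset.sum_eq_zero fun t _ => ?_
    by_cases ht : t ∈ C
    · rw [ha (t⁻¹ * g), mul_zero]
      intro h
      apply hg
      have := mul_mem ht h
      rwa [mul_inv_cancel_left] at this
    · rw [res_off ht, zero_mul]

theorem pwF_res {C : Subgroup G} {w : G → F} (hw : SpF C w) (s : ℕ) (x : G → F) :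
    pwF w s (res C x) = res C (pwF w s x) := by
  induction s with
  | zero => rfl
  | succ s ih => rw [pwF_succ, ih, mulF_res hw, pwF_succ]

theorem pwR_res {C : Subgroup G} {w : G → F} (hw : SpF C w) (s : ℕ) (x : G → F) :
    pwR w s (res C x) = res C (pwR w s x) := by
  induction s with
  | zero => rfl
  | succ s ih => rw [pwR_succ, ih, res_mulF hw, pwR_succ]

/-- the value at `1` -/
theorem loc_val {C : Subgroup G} {b w i : G → F} {q : ℕ} (h : UMF C b w i q) {s : ℕ} {x : G → F}
    (h1 : mulF i x = x) (h2 : mulF x i = x) (h3 : pwR w s x = 0) : pwF w s x 1 = 0 := by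
  obtain ⟨α, hα⟩ := h.loc (res C x) (fun g hg => res_off hg x)
  rw [res_mulF h.si, h2, mulF_res h.si, h1] at hα
  have hwi : toMA w * toMA i = toMA i * toMA w := comm_of h.cw h.si
  have hc : toMA (res C x) * toMA w = toMA w * toMA (res C x) := by
    rw [hα, toMA_sum', Finset.mul_sum, Finset.sum_mul]
    refine Finset.sum_congr rfl fun j _ => ?_
    rw [toMA_smul, smul_mul_assoc, mul_smul_comm, toMA_pwF, mul_assoc, ← hwi, ← mul_assoc,
      ← mul_assoc, ← pow_succ, ← pow_succ']
  have hc' : toMA (res C x) * toMA w ^ s = toMA w ^ s * toMA (res C x) := Commute.pow_right hc s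
  have e1 : pwF w s (res C x) = pwR w s (res C x) := by
    apply toMA_injective
    rw [toMA_pwF, toMA_pwR, hc']
  rw [pwF_res h.sw, pwR_res h.sw, h3] at e1
  have e2 := congrFun e1 1
  rw [res_of (one_mem C), res_of (one_mem C)] at e2
  exact e2

/-! ## The spaces `M_s` -/

theorem pwR_alp (ρ : Representation F G V) (η : V →ₗ[F] F) (w : G → F) (s : ℕ) (v : V) :
    pwR w s (alp ρ η v) = alp ρ (η ∘ₗ (evV ρ w) ^ s) v := by
  induction s with
  | zero => rfl
  | succ s ih => rw [pwR_succ, ih, alp_mulF, LinearMap.comp_assoc, pow_succ]; rfl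

theorem pwF_alp (ρ : Representation F G V) (η : V →ₗ[F] F) (w : G → F) (s : ℕ) (v : V) :
    pwF w s (alp ρ η v) = alp ρ η (((evV ρ w) ^ s) v) := by
  induction s with
  | zero => rfl
  | succ s ih => rw [pwF_succ, ih, mulF_alp, pow_succ', Module.End.mul_apply]

/-- the space `M_s` -/
def Ms (b w i : G → F) (s : ℕ) : Submodule F (G → F) where
  carrier := {x | MSw b w i s x}
  add_mem' := by
    rintro x y ⟨h1, h2, h3⟩ ⟨h4, h5, h6⟩
    refine ⟨by rw [mulF_add, h1, h4], by rw [add_mulF, h2, h5], ?_⟩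
    apply toMA_injective
    have h3' := congrArg toMA h3
    have h6' := congrArg toMA h6
    rw [toMA_pwR] at h3' h6' ⊢
    rw [toMA_add, add_mul, h3', h6', toMA_zero, add_zero]
  zero_mem' := by
    refine ⟨mulF_zero _, zero_mulF _, ?_⟩
    apply toMA_injective
    rw [toMA_pwR, toMA_zero, zero_mul]
  smul_mem' := by
    rintro c x ⟨h1, h2, h3⟩
    refine ⟨by rw [mulF_smul, h1], by rw [smul_mulF, h2], ?_⟩
    apply toMA_injective
    have h3' := congrArg toMA h3
    rw [toMA_pwR] at h3' ⊢
    rw [toMA_smul, smul_mul_assoc, h3', toMA_zero, smul_zero]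

theorem mem_Ms {b w i : G → F} {s : ℕ} {x : G → F} : x ∈ Ms b w i s ↔ MSw b w i s x := Iff.rfl

theorem Ms_stb {b : G → F} (hb : IsCl b) (w i : G → F) (s : ℕ) :
    Stb ⊤ (lreg F G) (Ms b w i s) := by
  rintro g - x ⟨h1, h2, h3⟩
  have e : toMA (lreg F G g x) = MonoidAlgebra.single g (1 : F) * toMA x :=
    (single_mul_toMA g x).symm
  refine ⟨?_, ?_, ?_⟩
  · apply toMA_injective
    rw [toMA_mulF, e, ← mul_assoc, (Pool.Agent.PP.H20.isCl_iff b).1 hb, mul_assoc, ← toMA_mulF, h1]
  · apply toMA_injective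
    rw [toMA_mulF, e, mul_assoc, ← toMA_mulF, h2]
  · apply toMA_injective
    have h3' := congrArg toMA h3
    rw [toMA_pwR] at h3' ⊢
    rw [e, mul_assoc, h3', toMA_zero, mul_zero]

theorem mulF_mem {b : G → F} (hb : IsCl b) {w i : G → F} {s : ℕ} (a : G → F) {x : G → F}
    (hx : x ∈ Ms b w i s) : mulF a x ∈ Ms b w i s := by
  rw [← evV_lreg]
  exact D66.evV_mem (N := ⊤) (Ms_stb hb w i s) (fun x hx => absurd trivial hx) hx

/-- the properties of the linear form -/
structure Eta (ρ : Representation F G V) (b w i : G → F) (s : ℕ) (η : V →ₗ[F] F) : Prop where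
  one : ∀ v, evV ρ b v = v
  ei : η ∘ₗ evV ρ i = η
  ew : η ∘ₗ (evV ρ w) ^ s = 0

theorem alp_mem {ρ : Representation F G V} {b w i : G → F} {s : ℕ} {η : V →ₗ[F] F}
    (h : Eta ρ b w i s η) (v : V) : alp ρ η v ∈ Ms b w i s := by
  refine ⟨?_, ?_, ?_⟩
  · rw [mulF_alp, h.one]
  · rw [alp_mulF, h.ei]
  · rw [pwR_alp, h.ew]
    funext g
    rfl

theorem alp_stb (ρ : Representation F G V) (η : V →ₗ[F] F) :
    Stb ⊤ (lreg F G) (LinearMap.range (alp ρ η)) := by
  rintro g - _ ⟨v, rfl⟩
  refine ⟨ρ g v, ?_⟩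
  funext x
  change η (ρ x⁻¹ (ρ g v)) = η (ρ (g⁻¹ * x)⁻¹ v)
  rw [mul_inv_rev, inv_inv, map_mul]
  rfl

theorem pow_restrict {E : Submodule F V} {W : V →ₗ[F] V} (hW : ∀ v ∈ E, W v ∈ E) (j : ℕ) (v : E) :
    (((W.restrict hW ^ j) v : E) : V) = (W ^ j) v := by
  induction j with
  | zero => rfl
  | succ j ih =>
    rw [pow_succ', Module.End.mul_apply, LinearMap.coe_restrict_apply, ih, pow_succ',
      Module.End.mul_apply]

end Pool.Agent.PP.CD2.H46
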