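import Pool.Agent.Helper46_D2.Xpr0

/-!
# Part D2, module XPR, second part: the fixed points of the cokernel
-/

open scoped BigOperators

set_option linter.unusedSectionVars false

noncomputable section

namespace Pool.Agent.PP.CD2.H46

open Pool.Agent.PP Pool.Agent.Helper51_AWC Pool.Agent.Helper79_WRA Pool.Agent.PP.H20
open Pool.Agent.PP.CD2.H66 (toMA_pwF toMA_pwR pwF_succ pwR_succ pwF_zero pwR_zero cm_comm comm_of
  umf_ums ums_nil' ums_wb toMA_sum')

variable {F : Type} [Field F] {G : Type} [Group G] [Finite G] {V : Type} [AddCommGroup V]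
  [Module F V]

theorem pwF_one (w a : G → F) : pwF w 1 a = mulF w a := rfl

theorem pwF_add' (w a c : G → F) (s : ℕ) : pwF w s (a + c) = pwF w s a + pwF w s c := by
  apply toMA_injective
  rw [toMA_pwF, toMA_add, toMA_add, toMA_pwF, toMA_pwF, mul_add]

theorem pwF_sub' (w a c : G → F) (s : ℕ) : pwF w s (a - c) = pwF w s a - pwF w s c := by
  apply toMA_injective
  rw [toMA_pwF, toMA_sub, toMA_sub, toMA_pwF, toMA_pwF, mul_sub]

theorem pwF_smul' (w a : G → F) (c : F) (s : ℕ) : pwF w s (c • a) = c • pwF w s a := by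
  apply toMA_injective
  rw [toMA_pwF, toMA_smul, toMA_smul, toMA_pwF, mul_smul_comm]

theorem core (hnlk : NlkStmt) (hxbm : XbmStmt) {ℓ : ℕ} [Fact ℓ.Prime] (hF : GoodF ℓ F) {n : ℕ}
    {P : Subgroup G} {y₁ : G} {b w i : G → F} (h : C4S ℓ n P y₁ b w i) (ρ : Representation F G V)
    {t u : V} {s : ℕ} (hs1 : 1 ≤ s) (hs2 : s + 1 ≤ ℓ ^ (n + 1)) (hti : evV ρ i t = t)
    (htw : evV ρ w t = 0) (hut : t = ((evV ρ w) ^ (s - 1)) u) (hui : evV ρ i u = u)
    (htn : t ∉ LinearMap.range ((evV ρ w) ^ s))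
    (hker : ∀ v, evV ρ i v = v → evV ρ w v = 0 →
      ∃ α : F, v - α • t ∈ rngW ρ w (ℓ ^ (n + 1) - 1))
    {η : V →ₗ[F] F} (hη : Eta ρ b w i s η) (hηt : η t = 1)
    (hinj : Function.Injective (alp ρ η)) {x : G → F} (hx : MSw b w i s x)
    (hix : mulF i x = x) {v₀ : V} (hv₀ : mulF w x = alp ρ η v₀) :
    ∃ (v : V) (y : G → F), MSw b w i s y ∧ x = alp ρ η v + pwF w (ℓ ^ (n + 1) - 1) y := by
  have hq : 0 < ℓ ^ (n + 1) := pow_pos (Fact.out : ℓ.Prime).pos _
  have hums : UMS (CY y₁) (bY y₁ b) w (ℓ ^ (n + 1)) := umf_ums h.umf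
  have hwq : toMA w ^ (ℓ ^ (n + 1)) = 0 := ums_nil' hums hq
  have hwi : mulF w i = mulF i w := cm_comm h.umf.cw h.umf.si
  have hcl : IsCl b := h.d2s.idem.1
  have hbw : ∀ a : G → F, mulF b a = mulF a b := fun a => mulF_comm_of_cl hcl a
  have hwqV : (evV ρ w) ^ (ℓ ^ (n + 1)) = 0 := by
    have e1 : pwF w (ℓ ^ (n + 1)) (bY y₁ b) = 0 := H66.ums_nil hums
    have e2 : evV ρ w * evV ρ (bY y₁ b) = evV ρ w := by
      rw [← H66.evV_mulF, ums_wb hums]
    have e3 : (evV ρ w) ^ (ℓ ^ (n + 1)) * evV ρ (bY y₁ b) = 0 := by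
      rw [← H66.evV_pwF, e1, H66.evV_zero]
    obtain ⟨r, hr⟩ : ∃ r, ℓ ^ (n + 1) = r + 1 := ⟨ℓ ^ (n + 1) - 1, by omega⟩
    rw [hr] at e3 ⊢
    rw [pow_succ, mul_assoc, e2, ← pow_succ] at e3
    exact e3
  -- the space `i V`
  let E : Submodule F V := LinearMap.ker (evV ρ i - LinearMap.id)
  have hE : ∀ v, v ∈ E ↔ evV ρ i v = v := by
    intro v
    rw [LinearMap.mem_ker, LinearMap.sub_apply, sub_eq_zero]
    rfl
  have hcomm : ∀ v, evV ρ i (evV ρ w v) = evV ρ w (evV ρ i v) := by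
    intro v
    rw [← H66.evV_mulF_apply, ← H66.evV_mulF_apply, hwi]
  have hcommj : ∀ (j : ℕ) v, evV ρ i (((evV ρ w) ^ j) v) = ((evV ρ w) ^ j) (evV ρ i v) := by
    intro j v
    induction j with
    | zero => rfl
    | succ j ih =>
      rw [pow_succ', Module.End.mul_apply, hcomm, ih, Module.End.mul_apply]
  have hWE : ∀ v ∈ E, evV ρ w v ∈ E := by
    intro v hv
    rw [hE] at hv ⊢
    rw [hcomm, hv]
  have hii : ∀ v, evV ρ i v ∈ E := by
    intro v
    rw [hE, ← H66.evV_mulF_apply, h.umf.ii]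
  let W : E →ₗ[F] E := (evV ρ w).restrict hWE
  have hWj : ∀ (j : ℕ) (v : E), (((W ^ j) v : E) : V) = ((evV ρ w) ^ j) v :=
    fun j v => pow_restrict hWE j v
  have hW1 : ∀ v : E, ((W v : E) : V) = evV ρ w v := fun v => rfl
  -- `v₀` may be replaced by `i v₀`
  have hv0E : evV ρ i v₀ = v₀ := by
    apply hinj
    rw [← mulF_alp, ← hv₀, ← mulF_assoc, ← hwi, mulF_assoc, hix]
  have hv0q : ((evV ρ w) ^ (ℓ ^ (n + 1) - 1)) v₀ = 0 := by
    apply hinj
    rw [← pwF_alp, ← hv₀, map_zero]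
    apply toMA_injective
    rw [toMA_pwF, toMA_mulF, ← mul_assoc, ← pow_succ, Nat.sub_add_cancel hq, hwq, zero_mul,
      toMA_zero]
  obtain ⟨p, v', hv'⟩ := hnlk F E W (ℓ ^ (n + 1)) s ⟨t, (hE t).2 hti⟩ ⟨u, (hE u).2 hui⟩
    (by
      apply LinearMap.ext
      intro v
      apply Subtype.ext
      rw [hWj, hwqV]
      rfl)
    hs1 hs2
    (by
      apply Subtype.ext
      rw [hWj]
      exact hut)
    (by
      rintro ⟨a, ha⟩
      apply htn
      refine ⟨a, ?_⟩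
      have := congrArg Subtype.val ha
      rw [hWj] at this
      exact this)
    (by
      intro v hv
      have h1 : evV ρ w (v : V) = 0 := by
        have := congrArg Subtype.val hv
        rwa [hW1] at this
      obtain ⟨α, a, ha⟩ := hker v ((hE _).1 v.2) h1
      refine ⟨α, ⟨evV ρ i a, hii a⟩, ?_⟩
      apply Subtype.ext
      change (v : V) = α • t + (((W ^ (ℓ ^ (n + 1) - 1)) ⟨evV ρ i a, hii a⟩ : E) : V)
      rw [hWj]
      change (v : V) = α • t + ((evV ρ w) ^ (ℓ ^ (n + 1) - 1)) (evV ρ i a)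
      rw [← hcommj, ha, map_sub, map_smul, hti, (hE _).1 v.2]
      abel)
    ⟨v₀, (hE v₀).2 hv0E⟩
    (by
      apply Subtype.ext
      rw [hWj]
      exact hv0q)
  have hv'1 : v₀ = p • u + evV ρ w v' := by
    have := congrArg Subtype.val hv'
    exact this
  have hv'i : evV ρ i (v' : V) = v' := (hE _).1 v'.2
  -- the element `x''`
  obtain ⟨x', hx'⟩ : ∃ x', x' = x - alp ρ η v' := ⟨_, rfl⟩
  have hx'M : MSw b w i s x' := by
    rw [hx']
    exact (Ms b w i s).sub_mem (mem_Ms.2 hx) (alp_mem hη _)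
  have hx'i : mulF i x' = x' := by
    rw [hx', mulF_sub, hix, mulF_alp, hv'i]
  have hwx' : mulF w x' = p • alp ρ η u := by
    rw [hx', mulF_sub, hv₀, mulF_alp, ← map_sub, ← map_smul]
    congr 1
    rw [hv'1]
    abel
  have hp : p = 0 := by
    have e1 := loc_val h.umf hx'i hx'M.2.1 hx'M.2.2
    have e2 : pwF w s x' = p • alp ρ η t := by
      obtain ⟨r, rfl⟩ : ∃ r, s = r + 1 := ⟨s - 1, by omega⟩
      have e3 : pwF w (r + 1) x' = pwF w r (mulF w x') := H66.pwF_add w x' r 1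
      rw [e3, hwx', pwF_smul', pwF_alp]
      congr 2
      rw [hut]
      rfl
    rw [e2] at e1
    have e4 : p * alp ρ η t 1 = 0 := e1
    rw [alp_one, hηt, mul_one] at e4
    exact e4
  rw [hp, zero_smul] at hwx'
  obtain ⟨α, z, hz1, hz2, hz3, -⟩ := hxbm ℓ F hF G n P y₁ b w i h s (by omega) x' hx'i hx'M.2.1
    hwx' hx'M.2.2
  obtain ⟨β, z', hz1', hz2', hz3', hz4'⟩ := hxbm ℓ F hF G n P y₁ b w i h s (by omega)
    (alp ρ η t) (by rw [mulF_alp, hti]) (alp_mem hη t).2.1 (by rw [mulF_alp, htw, map_zero])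
    (alp_mem hη t).2.2
  have hβ : β ≠ 0 := by
    intro h0
    have e1 := hz4' 1 (one_mem _)
    rw [alp_one, hηt, h0, zero_mul] at e1
    exact one_ne_zero e1
  -- multiply by `b`
  have hM : ∀ c : G → F, mulF c i = c → pwR w s c = 0 → MSw b w i s (mulF b c) := by
    intro c h1 h2
    refine ⟨?_, ?_, ?_⟩
    · rw [← mulF_assoc, h.d2s.idem.2]
    · rw [mulF_assoc, h1]
    · apply toMA_injective
      have h3 := congrArg toMA h2
      rw [toMA_pwR, toMA_zero] at h3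
      rw [toMA_pwR, toMA_mulF, mul_assoc, h3, mul_zero, toMA_zero]
  have hbp : ∀ (j : ℕ) (c : G → F), mulF b (pwF w j c) = pwF w j (mulF b c) := by
    intro j c
    induction j with
    | zero => rfl
    | succ j ih => rw [pwF_succ, ← mulF_assoc, hbw w, mulF_assoc, ih, pwF_succ]
  have e1 : x' = α • mulF b (pwF w (ℓ ^ (n + 1) - 1) i) +
      pwF w (ℓ ^ (n + 1) - 1) (mulF b z) := by
    have := congrArg (mulF b) hz1
    rw [hx'M.1, mulF_add, mulF_smul, hbp _ z] at this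
    exact this
  have e2 : alp ρ η t = β • mulF b (pwF w (ℓ ^ (n + 1) - 1) i) +
      pwF w (ℓ ^ (n + 1) - 1) (mulF b z') := by
    have := congrArg (mulF b) hz1'
    rw [(alp_mem hη t).1, mulF_add, mulF_smul, hbp _ z'] at this
    exact this
  refine ⟨(α * β⁻¹) • t + v', mulF b z - (α * β⁻¹) • mulF b z', ?_, ?_⟩
  · exact (Ms b w i s).sub_mem (mem_Ms.2 (hM z hz2 hz3))
      ((Ms b w i s).smul_mem _ (mem_Ms.2 (hM z' hz2' hz3')))
  · have e3 : x = x' + alp ρ η v' := by rw [hx']; abel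
    have e4 : (α * β⁻¹) • (β • mulF b (pwF w (ℓ ^ (n + 1) - 1) i)) =
        α • mulF b (pwF w (ℓ ^ (n + 1) - 1) i) := by
      rw [smul_smul, mul_assoc, inv_mul_cancel₀ hβ, mul_one]
    rw [e3, map_add, map_smul, pwF_sub', pwF_smul', e2, smul_add, e4, e1]
    abel

end Pool.Agent.PP.CD2.H46
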